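import Mathlib
import Pool.Agent.Lib.MP_dd16b7_nt.WeightAll

/-!
Weights for random Weil groups: for Haar-almost every continuous automorphism `φ` of the free
pro-`p` group `F` of rank `d`, and every representation `σ` of `W_φ = F ⋊ ⟨φ⟩` over a finite
extension `L` of `ℚ_p`, continuous on `F`, whose constituents have algebraic determinant at the
generator, `φ` has no algebraic eigenvalue in `L` on `H¹_cts(F; σ)`. In particular
`H¹_cts(F; ρ ⊗ ρ^∨)^φ = 0` for every `ρ`, irreducible or not, such that conjugation by `ρ(φ)` is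
killed by a nonzero integer polynomial.
-/

namespace Pool.Agent.Results.MP_dd16b7_nt.AlgebraicWeights

open MeasureTheory SemidirectProduct Pool.Agent.Lib.MP_dd16b7_nt

section Defs

variable {F : Type} [Group F] [TopologicalSpace F]

/-- The generator `t` of the infinite cyclic factor of `W_φ`. -/
def gen (φ : ContAut F) : Weil φ := inr (Multiplicative.ofAdd 1)

/-- On every `W_φ`-stable subspace `U`, the determinant of `σ(t)` is an algebraic number. -/
def AlgDet {L V : Type} [Field L] [AddCommGroup V] [Module L V] {φ : ContAut F}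
    (σ : Representation L (Weil φ) V) : Prop :=
  ∀ (U : Submodule L V) (hU : ∀ w, ∀ v ∈ U, σ w v ∈ U),
    IsAlgebraic ℤ (LinearMap.det ((σ (gen φ)).restrict (hU (gen φ))))

/-- No algebraic `z ∈ L` is an eigenvalue of `φ` on `H¹_cts(F; V)`, where `W_φ` acts on `V` by
`act` and `φ • c` sends `a` to `t • c(φ⁻¹ a)`: a continuous cocycle `c` such that `φ • c - z c` is a
coboundary is a coboundary. -/
def NoAlgEigenvalue (L : Type) {V : Type} [Field L] [AddCommGroup V] [Module L V]
    [TopologicalSpace V] (φ : ContAut F) (act : Weil φ → V → V) : Prop :=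
  ∀ z : L, IsAlgebraic ℤ z → ∀ c : F → V, Continuous c →
    (∀ a b, c (a * b) = c a + act (inl a) (c b)) →
    (∃ B, ∀ a, act (gen φ) (c (φ.1⁻¹ a)) - z • c a = act (inl a) B - B) →
    ∃ B, ∀ a, c a = act (inl a) B - B

end Defs

theorem result (p : ℕ) [Fact p.Prime] (d : ℕ)
    (F : Type) [Group F] [TopologicalSpace F] [IsTopologicalGroup F] [CompactSpace F]
    [TotallyDisconnectedSpace F] (x : Fin d → F) (hF : IsFreeProP p x)
    [MeasurableSpace (ContAut F)] [BorelSpace (ContAut F)] (μ : Measure (ContAut F))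
    [μ.IsHaarMeasure] [IsProbabilityMeasure μ] :
    ∀ᵐ φ ∂μ, ∀ (L V : Type) [Field L] [Algebra ℚ_[p] L] [FiniteDimensional ℚ_[p] L]
      [AddCommGroup V] [Module L V] [FiniteDimensional L V] [Module ℚ_[p] V]
      [IsScalarTower ℚ_[p] L V] [TopologicalSpace V] [IsModuleTopology ℚ_[p] V]
      (σ : Representation L (Weil φ) V), (∀ v, Continuous fun a : F => σ (inl a) v) →
      AlgDet σ → NoAlgEigenvalue L φ fun w v => σ w v := by
  filter_upwards [hF.ae_van μ] with φ hφ L V _ _ _ _ _ _ _ _ _ _ σ hσ halg z hz c hc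
  exact hφ L V σ (fun v l => (IsModuleTopology.continuous_of_linearMap l).comp (hσ v))
    (fun U hU => halg U hU) z hz c
    fun l => (IsModuleTopology.continuous_of_linearMap l).comp hc

/-- The special case of coefficients `ρ ⊗ ρ^∨ = End(L^n)`, when conjugation by `ρ(t)` is killed by
a nonzero integer polynomial; `ρ` need not be irreducible. -/
theorem adjoint (p : ℕ) [Fact p.Prime] (d : ℕ)
    (F : Type) [Group F] [TopologicalSpace F] [IsTopologicalGroup F] [CompactSpace F]
    [TotallyDisconnectedSpace F] (x : Fin d → F) (hF : IsFreeProP p x)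
    [MeasurableSpace (ContAut F)] [BorelSpace (ContAut F)] (μ : Measure (ContAut F))
    [μ.IsHaarMeasure] [IsProbabilityMeasure μ] :
    ∀ᵐ φ ∂μ, ∀ (L : Type) [Field L] [Algebra ℚ_[p] L] [FiniteDimensional ℚ_[p] L]
      [TopologicalSpace L] [IsModuleTopology ℚ_[p] L] (n : ℕ) (ρ : Weil φ →* GL (Fin n) L),
      (Continuous fun a : F => ρ (inl a)) →
      IsAlgebraic ℤ (LinearMap.mulLeftRight L ((ρ (gen φ)).val, ((ρ (gen φ))⁻¹).val)) →
      NoAlgEigenvalue L φ fun w A => (ρ w).val * A * ((ρ w)⁻¹).val := by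
  filter_upwards [result p d F x hF μ] with φ key L _ _ _ _ _ n ρ hρ ⟨f, hf0, hf⟩
  have : IsModuleTopology ℚ_[p] (Matrix (Fin n) (Fin n) L) :=
    inferInstanceAs (IsModuleTopology ℚ_[p] (Fin n → Fin n → L))
  have : IsTopologicalRing L := IsModuleTopology.isTopologicalRing ℚ_[p] L
  let σ : Representation L (Weil φ) (Matrix (Fin n) (Fin n) L) :=
    { toFun := fun w => LinearMap.mulLeftRight L ((ρ w).val, ((ρ w)⁻¹).val)
      map_one' := LinearMap.ext fun A => by simp
      map_mul' := fun a b => LinearMap.ext fun A => by simp [mul_assoc] }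
  refine key L _ σ (fun A => ?_) fun U hU => isAlgebraic_det hf0 (LinearMap.ext fun v => ?_)
  · exact ((Units.continuous_val.comp hρ).mul continuous_const).mul
      (Units.continuous_coe_inv.comp hρ)
  · have h1 := LinearMap.congr_fun hf (v : Matrix (Fin n) (Fin n) L)
    rw [Polynomial.aeval_eq_sum_range] at h1 ⊢
    refine Subtype.ext ?_
    rw [LinearMap.sum_apply, Submodule.coe_sum]
    rw [LinearMap.sum_apply] at h1
    refine Eq.trans (Finset.sum_congr rfl fun i _ => ?_) h1
    rw [Module.End.pow_restrict]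
    rfl

end Pool.Agent.Results.MP_dd16b7_nt.AlgebraicWeights
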