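import Mathlib
import Pool.Agent.Lib.MP_dd16b7_nt.Main
import Pool.Agent.Lib.MP_dd16b7_nt.Exists

/-!
Cohomological rigidity for random Weil groups: for Haar-almost every continuous automorphism `φ`
of the free pro-`p` group `F` of rank `d`, every continuous irreducible representation `ρ` of
`W_φ = F ⋊ ⟨φ⟩` over a finite extension of `ℚ_p` has `H¹_cts(F; ρ ⊗ ρ^∨)^φ = 0`.
-/

namespace Pool.Agent.Results.MP_dd16b7_nt.WeilRigidity

open MeasureTheory Matrix SemidirectProduct Pool.Agent.Lib.MP_dd16b7_nt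

section Defs

variable {L : Type} [Field L] {n : ℕ}

/-- The conjugation action `A ↦ g A g⁻¹` of `GL_n(L)` on `End(L^n)`. -/
def adj (g : GL (Fin n) L) (A : Matrix (Fin n) (Fin n) L) : Matrix (Fin n) (Fin n) L :=
  g.val * A * (g⁻¹).val

/-- The only invariant subspaces of `L^n` are `0` and `L^n`. -/
def IsIrred {W : Type} [Group W] (ρ : W →* GL (Fin n) L) : Prop :=
  ∀ U : Submodule L (Fin n → L), (∀ w, ∀ v ∈ U, (ρ w).val *ᵥ v ∈ U) → U = ⊥ ∨ U = ⊤

/-- One-cocycles with values in `σ ⊗ σ^∨ = End(L^n)`. -/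
def IsCoc {G : Type} [Group G] (σ : G →* GL (Fin n) L) (c : G → Matrix (Fin n) (Fin n) L) :
    Prop :=
  ∀ a b, c (a * b) = c a + adj (σ a) (c b)

/-- One-coboundaries with values in `σ ⊗ σ^∨ = End(L^n)`. -/
def IsCob {G : Type} [Group G] (σ : G →* GL (Fin n) L) (c : G → Matrix (Fin n) (Fin n) L) :
    Prop :=
  ∃ B : Matrix (Fin n) (Fin n) L, ∀ a, c a = adj (σ a) B - B

/-- `H¹_cts(F; ρ ⊗ ρ^∨)^φ = 0`: a continuous cocycle `c` on `F` whose class is fixed by `φ`, acting
by `(φ • c) a = ρ(φ) c(φ⁻¹ a) ρ(φ)⁻¹`, is a coboundary. -/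
def InvH1Vanishes {F : Type} [Group F] [TopologicalSpace F] [TopologicalSpace L] (φ : ContAut F)
    (ρ : Weil φ →* GL (Fin n) L) : Prop :=
  ∀ c : F → Matrix (Fin n) (Fin n) L, Continuous c → IsCoc (ρ.comp inl) c →
    IsCob (ρ.comp inl) (fun a => adj (ρ (inr (Multiplicative.ofAdd 1))) (c (φ.1⁻¹ a)) - c a) →
    IsCob (ρ.comp inl) c

end Defs

/-- The hypotheses of `result` are not vacuous: free pro-`p` groups exist, their automorphism
groups are compact groups and carry a normalized Haar measure. -/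
theorem nonvacuous (p : ℕ) [Fact p.Prime] (d : ℕ) :
    ∃ (F : Type) (_ : Group F) (_ : TopologicalSpace F) (_ : IsTopologicalGroup F)
      (_ : CompactSpace F) (_ : TotallyDisconnectedSpace F) (x : Fin d → F)
      (_ : MeasurableSpace (ContAut F)) (_ : BorelSpace (ContAut F)) (μ : Measure (ContAut F)),
      IsFreeProP p x ∧ CompactSpace (ContAut F) ∧ IsTopologicalGroup (ContAut F) ∧
        μ.IsHaarMeasure ∧ IsProbabilityMeasure μ := by
  obtain ⟨F, _, _, _, _, _, x, hF⟩ := exists_isFreeProP p d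
  borelize ↥(ContAut F)
  obtain ⟨μ, h1, h2⟩ := hF.exists_haar
  exact ⟨F, _, _, inferInstance, inferInstance, inferInstance, x, _, inferInstance, μ, hF,
    hF.compactSpace_aut, hF.isTopologicalGroup_aut, h1, h2⟩

theorem result (p : ℕ) [Fact p.Prime] (d : ℕ)
    (F : Type) [Group F] [TopologicalSpace F] [IsTopologicalGroup F] [CompactSpace F]
    [TotallyDisconnectedSpace F] (x : Fin d → F) (hF : IsFreeProP p x)
    [MeasurableSpace (ContAut F)] [BorelSpace (ContAut F)] (μ : Measure (ContAut F))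
    [μ.IsHaarMeasure] [IsProbabilityMeasure μ] :
    ∀ᵐ φ ∂μ, ∀ (L : Type) [Field L] [Algebra ℚ_[p] L] [FiniteDimensional ℚ_[p] L]
      [TopologicalSpace L] [IsModuleTopology ℚ_[p] L] (n : ℕ), 1 ≤ n →
      ∀ ρ : Weil φ →* GL (Fin n) L, (Continuous fun a : F => ρ (inl a)) → IsIrred ρ →
        InvH1Vanishes φ ρ := by
  filter_upwards [hF.ae_rigid μ] with φ hφ L _ _ _ _ _ n hn ρ hρ hirr c hc hcoc ⟨B, hB⟩
  have key := hφ L n hn ((Units.coeHom _).comp ρ) (Units.continuous_val.comp hρ) hirr c hc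
    (fun a b => by simpa [adj] using hcoc a b) (fun a ha => ?_)
  · simpa [IsCob, adj] using key
  · have h1 : ρ (inl a) = 1 := Units.ext ha
    have h2 : ρ (inl (φ.1 a)) = 1 := by
      have := inl_aut (φ := zpowersHom (MulAut F) φ.1) (Multiplicative.ofAdd 1) a
      rw [show (zpowersHom (MulAut F) φ.1 (Multiplicative.ofAdd 1)) a = φ.1 a by simp] at this
      rw [this, map_mul, map_mul, h1, mul_one, ← map_mul, ← map_mul]
      simp
    have h3 := hB (φ.1 a)
    simp only [adj, MonoidHom.comp_apply] at h3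
    rw [h2, show φ.1⁻¹ (φ.1 a) = a by simp] at h3
    simp only [Units.val_one, inv_one, one_mul, mul_one, sub_self, sub_eq_zero] at h3
    simpa using h3.symm

end Pool.Agent.Results.MP_dd16b7_nt.WeilRigidity
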